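import Pool.Agent.helper5.PR.SpecY
import Pool.Agent.helper21.PR.X_UNI

/-!
# Project pr: (MP_a2a22c_al), module Y-UNI: the unitriangular group is not virtually linear of
degree `n - 1`
-/

set_option autoImplicit false

namespace Pool.Agent.PR

open Matrix Module
open scoped commutatorElement

theorem Y_UNI_ne {n : ℕ} (i : Fin (n - 1)) :
    (⟨(i : ℕ), by omega⟩ : Fin n) ≠ ⟨(i : ℕ) + 1, by omega⟩ := by
  intro h
  exact absurd (congrArg Fin.val h) (by simp)

/-- the elementary matrices which generate the group -/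
def Y_UNI_g {n : ℕ} (i : Fin (n - 1)) : SLZ n :=
  el (⟨(i : ℕ), by omega⟩ : Fin n) ⟨(i : ℕ) + 1, by omega⟩ (Y_UNI_ne i) 1

/-- the group -/
def Y_UNI_P (n : ℕ) : Subgroup (SLZ n) := Subgroup.closure (Set.range (Y_UNI_g (n := n)))

theorem Y_UNI_fg (n : ℕ) : Group.FG (Y_UNI_P n) := by
  rw [Group.fg_iff_subgroup_fg, Subgroup.fg_iff]
  exact ⟨_, rfl, Set.finite_range _⟩

theorem Y_UNI_le (n : ℕ) : Y_UNI_P n ≤ X_UNI_U n 0 := by
  unfold Y_UNI_P
  rw [Subgroup.closure_le]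
  rintro _ ⟨i, rfl⟩
  exact X_UNI_el_mem 0 _ _ _ (by simp) 1

theorem Y_UNI_bot (n : ℕ) (hn : 1 ≤ n) : (Y_UNI_P n).lowerCentralSeries (n - 1) = ⊥ := by
  rw [eq_bot_iff]
  intro A hA
  have h1 : A ∈ X_UNI_U n (n - 1) :=
    X_UNI_lcs_le n (n - 1) (Subgroup.lowerCentralSeries_mono (n - 1) (Y_UNI_le n) hA)
  have h2 : A ∈ X_UNI_U n n := by
    intro i j _
    exact h1 i j (by omega)
  rwa [X_UNI_top] at h2

theorem Y_UNI_ge {n : ℕ} (hn : 3 ≤ n) (c : ℕ) (hc : c + 1 < n) :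
    el (⟨0, by omega⟩ : Fin n) ⟨c + 1, hc⟩ (by intro h; exact absurd (congrArg Fin.val h) (by simp)) 1 ∈
      (Y_UNI_P n).lowerCentralSeries c := by
  induction c with
  | zero => exact Subgroup.subset_closure ⟨⟨0, by omega⟩, rfl⟩
  | succ c ih =>
    rw [Subgroup.lowerCentralSeries_succ]
    rw [← X_UNI_el_comm (⟨0, by omega⟩ : Fin n) ⟨c + 1, by omega⟩ ⟨c + 1 + 1, hc⟩
      (by intro h; exact absurd (congrArg Fin.val h) (by simp))
      (by intro h; exact absurd (congrArg Fin.val h) (by simp))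
      (by intro h; exact absurd (congrArg Fin.val h) (by simp))]
    refine Subgroup.commutator_mem_commutator (ih (by omega)) ?_
    exact Subgroup.subset_closure ⟨⟨c + 1, by omega⟩, rfl⟩

theorem Y_UNI_ne_bot {n : ℕ} (hn : 3 ≤ n) : (Y_UNI_P n).lowerCentralSeries (n - 2) ≠ ⊥ := by
  intro hbot
  have h1 := Y_UNI_ge hn (n - 2) (by omega)
  rw [hbot, Subgroup.mem_bot] at h1
  have h2 := congrArg (fun A : SLZ n => (A : Matrix (Fin n) (Fin n) ℤ) ⟨0, by omega⟩
    ⟨n - 2 + 1, by omega⟩) h1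
  have h3 : (⟨0, by omega⟩ : Fin n) ≠ ⟨n - 2 + 1, by omega⟩ := by
    intro h
    exact absurd (congrArg Fin.val h) (by simp)
  change Matrix.transvection (⟨0, by omega⟩ : Fin n) ⟨n - 2 + 1, by omega⟩ (1 : ℤ)
    ⟨0, by omega⟩ ⟨n - 2 + 1, by omega⟩ = (1 : Matrix (Fin n) (Fin n) ℤ) ⟨0, by omega⟩
    ⟨n - 2 + 1, by omega⟩ at h2
  unfold Matrix.transvection at h2
  rw [Matrix.add_apply, Matrix.single_apply_same, Matrix.one_apply_ne h3] at h2
  norm_num at h2

theorem Y_UNI_nil {n : ℕ} (hn : 3 ≤ n) : Group.IsNilpotent (Y_UNI_P n) :=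
  Subgroup.isNilpotent_of_lowerCentralSeries_eq_bot (Y_UNI_bot n (by omega))

theorem Y_UNI_tf (n : ℕ) : TFree (Y_UNI_P n) := by
  intro g hg k hk hgk
  apply hg
  have h1 : (g : SLZ n) ^ k = 1 := by
    have := congrArg Subtype.val hgk
    simpa using this
  have h2 : ∀ c, (g : SLZ n) ∈ X_UNI_U n c := by
    intro c
    induction c with
    | zero => exact Y_UNI_le n g.2
    | succ c ih => exact X_UNI_tf _ k hk h1 c ih
  have h3 := h2 n
  rw [X_UNI_top, Subgroup.mem_bot] at h3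
  exact Subtype.ext h3

theorem Y_UNI_cen {n : ℕ} (hn : 3 ≤ n) : Y_UNI_P n ⊓ Subgroup.center (SLZ n) = ⊥ := by
  rw [eq_bot_iff]
  rintro A ⟨hA, hc⟩
  have hA' : A ∈ X_UNI_U n 0 := Y_UNI_le n hA
  have hc' : A ∈ Subgroup.center (SLZ n) := hc
  obtain ⟨r, -, hr⟩ := Matrix.SpecialLinearGroup.mem_center_iff.mp hc'
  have h0 : ((A : Matrix (Fin n) (Fin n) ℤ) - 1) ⟨0, by omega⟩ ⟨0, by omega⟩ = 0 :=
    hA' _ _ (by simp)
  rw [← hr, Matrix.sub_apply, Matrix.one_apply_eq, Matrix.scalar_apply,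
    Matrix.diagonal_apply_eq] at h0
  have hr1 : r = 1 := by linarith
  rw [Subgroup.mem_bot]
  apply Subtype.ext
  rw [← hr, hr1]
  simp

theorem Y_UNI (hTRI : N_TRI_stmt) (hSPL : N_SPL_stmt) (hPOW : N_POW_stmt) : Y_UNI_stmt := by
  intro n hn
  have hnil : Group.IsNilpotent (Y_UNI_P n) := Y_UNI_nil hn
  refine ⟨Y_UNI_P n, ⟨Y_UNI_fg n, hnil, Y_UNI_tf n, ?_⟩, Y_UNI_cen hn⟩
  intro H hH E _ _ f hf
  let K := AlgebraicClosure E
  let V := Fin (n - 1) → K
  let F : Matrix (Fin (n - 1)) (Fin (n - 1)) E →* Module.End K V :=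
    { toFun := fun A => (Matrix.toLinAlgEquiv' :
        Matrix (Fin (n - 1)) (Fin (n - 1)) K ≃ₐ[K] Module.End K V) ((algebraMap E K).mapMatrix A)
      map_one' := by rw [map_one, map_one]
      map_mul' := fun A B => by rw [map_mul, map_mul] }
  have hF : Function.Injective F := by
    intro A B hAB
    have h1 : (Matrix.toLinAlgEquiv' : Matrix (Fin (n - 1)) (Fin (n - 1)) K ≃ₐ[K] Module.End K V)
        ((algebraMap E K).mapMatrix A) = Matrix.toLinAlgEquiv' ((algebraMap E K).mapMatrix B) := hAB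
    have h2 := (Matrix.toLinAlgEquiv' :
      Matrix (Fin (n - 1)) (Fin (n - 1)) K ≃ₐ[K] Module.End K V).injective h1
    ext i j
    exact (algebraMap E K).injective (congrFun (congrFun h2 i) j)
  let ρ : H →* Module.End K V := F.comp ((Units.coeHom _).comp f)
  have hρ : Function.Injective ρ := hF.comp (Units.val_injective.comp hf)
  have hHnil : Group.IsNilpotent H := inferInstance
  obtain ⟨c, hc⟩ := Group.IsNilpotent.nilpotent H
  let H' : Subgroup H := Subgroup.closure (Set.range fun g : H => g ^ (finrank K V).factorial ^ c)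
  have hdim : finrank K V = n - 1 := Module.finrank_fin_fun K
  have htri : TriS (ρ.comp H'.subtype) := hTRI K V H c hc ρ H' rfl
  have hH'nil : Group.IsNilpotent H' := inferInstance
  have hspl := (hSPL K V H' hH'nil (ρ.comp H'.subtype) htri).1
  have hidx : max (finrank K V) 2 - 1 = n - 2 := by
    rw [hdim]
    omega
  rw [hidx] at hspl
  have hbot : (⊤ : Subgroup H').lowerCentralSeries (n - 2) = ⊥ := by
    rw [eq_bot_iff]
    intro t ht
    have h1 : ρ (t : H) = 1 := hspl t ht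
    have h2 : (t : H) = 1 := hρ (by rw [h1, map_one])
    exact Subgroup.mem_bot.2 (Subtype.ext h2)
  have hne : (⊤ : Subgroup (Y_UNI_P n)).lowerCentralSeries (n - 2) ≠ ⊥ := by
    intro h
    apply Y_UNI_ne_bot hn
    rw [← Subgroup.top_subtype_lowerCentralSeries, h, Subgroup.map_bot]
  have heq : (⊤ : Subgroup (Y_UNI_P n)).lowerCentralSeries (n - 2 + 1) = ⊥ := by
    have h1 : n - 2 + 1 = n - 1 := by omega
    rw [h1, ← Subgroup.map_eq_bot_iff_of_injective _ (Y_UNI_P n).subtype_injective,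
      Subgroup.top_subtype_lowerCentralSeries]
    exact Y_UNI_bot n (by omega)
  have hpow : ∀ g : Y_UNI_P n, ∃ k : ℕ, 0 < k ∧ g ^ k ∈ H'.map H.subtype := by
    intro g
    obtain ⟨k, hk, -, hgk⟩ := Subgroup.exists_pow_mem_of_index_ne_zero hH.index_ne_zero g
    have hE : 0 < (finrank K V).factorial ^ c := pow_pos (Nat.factorial_pos _) _
    refine ⟨k * (finrank K V).factorial ^ c, Nat.mul_pos hk hE, ?_⟩
    refine ⟨(⟨g ^ k, hgk⟩ : H) ^ (finrank K V).factorial ^ c,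
      Subgroup.subset_closure ⟨⟨g ^ k, hgk⟩, rfl⟩, ?_⟩
    rw [map_pow, pow_mul]
    rfl
  have hfin := hPOW (Y_UNI_P n) (H'.map H.subtype) (n - 2) (Y_UNI_tf n) hpow hne heq
  apply hfin
  rw [← Subgroup.map_eq_bot_iff_of_injective _ (H'.map H.subtype).subtype_injective,
    Subgroup.top_subtype_lowerCentralSeries, ← Subgroup.map_lowerCentralSeries,
    ← Subgroup.top_subtype_lowerCentralSeries, hbot, Subgroup.map_bot, Subgroup.map_bot]

end Pool.Agent.PR
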